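import Mathlib

set_option autoImplicit false

namespace Pool.Agent.Results.MP_541c26_co.RankFour

open Finset Matrix

def E (n : ℕ) : Set (Sym2 (Fin n)) := {e | e.IsDiag ∨ e ∈ (SimpleGraph.cycleGraph n).edgeSet}

def IsCompl {n : ℕ} (M : E n → ℝ) (C : Matrix (Fin n) (Fin n) ℝ) : Prop :=
  C.IsSymm ∧ ∀ i j (h : s(i, j) ∈ E n), C i j = M ⟨s(i, j), h⟩

def Typical (n r : ℕ) : Prop :=
  (interior {M : E n → ℝ | IsLeast {k | ∃ C, IsCompl M C ∧ C.rank = k} r}).Nonempty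

lemma pot {m : ℕ} (δ : Fin (m + 1) → ℝ) (h : ∑ i, δ i = 0) :
    ∃ x : Fin (m + 1) → ℝ, ∀ i, x (i + 1) - x i = δ i := by
  let d : ℕ → ℝ := fun j => if h : j < m + 1 then δ ⟨j, h⟩ else 0
  have hd : ∀ i : Fin (m + 1), d i = δ i := fun i => by simp [d, i.2, -Order.lt_add_one_iff]
  have h1 : ∑ j ∈ range (m + 1), d j = 0 := by
    rw [← Fin.sum_univ_eq_sum_range, ← h]; exact sum_congr rfl fun i _ => hd i
  refine ⟨fun i => ∑ j ∈ range i, d j, fun i => ?_⟩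
  simp only [Fin.val_add_one]
  split_ifs with hi
  · subst hi
    rw [sum_range_succ] at h1
    have := hd (Fin.last m)
    simp only [Fin.val_last, range_zero, sum_empty] at this ⊢
    linarith
  · rw [sum_range_succ, hd]; ring

lemma two (e1 e2 D F : ℝ) (h : 2 * |e1| + 2 * |e2| < D * F) :
    ∃ x y : ℝ, x * y = e1 ∧ (D - x) * (F - y) = e2 := by
  obtain ⟨P, hP⟩ : ∃ P, P = D * F := ⟨_, rfl⟩
  rw [← hP] at h
  have h1 := le_abs_self e1
  have h2 := le_abs_self e2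
  have h0 : 0 < P := by linarith [abs_nonneg e1, abs_nonneg e2]
  have h3 : 0 ≤ (P + e1 - e2) ^ 2 - 4 * P * e1 := by nlinarith [sq_nonneg (e1 - e2)]
  have h4 := Real.sq_sqrt h3
  obtain ⟨r, hr⟩ : ∃ r, r = √((P + e1 - e2) ^ 2 - 4 * P * e1) := ⟨_, rfl⟩
  rw [← hr] at h4
  have k : D * ((P + e1 - e2 + r) / (2 * P)) * (F * ((P + e1 - e2 - r) / (2 * P))) = e1 := by
    rw [mul_mul_mul_comm, ← hP]; field_simp; linear_combination -h4
  refine ⟨_, _, k, ?_⟩
  have k2 : (P + e1 - e2 + r) / (2 * P) + (P + e1 - e2 - r) / (2 * P) = (P + e1 - e2) / P := by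
    field_simp; ring
  have k3 : P * ((P + e1 - e2) / P) = P + e1 - e2 := by field_simp
  linear_combination k - D * F * k2 - k3 + (1 - (P + e1 - e2) / P) * hP.symm

lemma poly {k : ℕ} (e : Fin (k + 4) → ℝ) : ∃ δ ε : Fin (k + 4) → ℝ,
    (∀ i, δ i * ε i = e i) ∧ ∑ i, δ i = 0 ∧ ∑ i, ε i = 0 := by
  obtain ⟨R, hR⟩ : ∃ R, R = ∑ i : Fin k, e i.succ.succ.succ.succ := ⟨_, rfl⟩
  obtain ⟨L, hL⟩ : ∃ L, L = 2 + 2 * |e 0| + 2 * |e 1| := ⟨_, rfl⟩
  obtain ⟨s, hs⟩ : ∃ s, s = L + |e 2| + |e 3| + |R| := ⟨_, rfl⟩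
  have a0 := abs_nonneg (e 0)
  have a1 := abs_nonneg (e 1)
  have a2 := abs_nonneg (e 2)
  have a3 := abs_nonneg (e 3)
  have a4 := abs_nonneg R
  have a5 := neg_abs_le R
  have s1 : 1 ≤ s := by linarith
  have b : ∀ t : ℝ, -|t| ≤ t / s := fun t => by
    rw [le_div_iff₀ (by linarith)]
    nlinarith [neg_abs_le t, abs_nonneg t]
  have b2 := b (e 2)
  have b3 := b (e 3)
  have hk : (0 : ℝ) ≤ k := Nat.cast_nonneg k
  obtain ⟨x, y, h1, h2⟩ := two (e 0) (e 1) (-(s + e 3 / s + k)) (-(e 2 / s + s + R)) (by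
    rw [neg_mul_neg]
    have c1 : L ≤ s + e 3 / s + k := by linarith
    have c2 : L ≤ e 2 / s + s + R := by linarith
    have := mul_le_mul c1 c2 (by linarith) (by linarith)
    nlinarith)
  refine ⟨Fin.cons x (Fin.cons (-(s + e 3 / s + k) - x) (Fin.cons s (Fin.cons (e 3 / s) fun _ => 1))),
    Fin.cons y (Fin.cons (-(e 2 / s + s + R) - y) (Fin.cons (e 2 / s) (Fin.cons s
      fun i => e i.succ.succ.succ.succ))), ?_, ?_, ?_⟩
  · have : s ≠ 0 := by linarith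
    refine Fin.cases h1 (Fin.cases h2 (Fin.cases ?_ (Fin.cases ?_ fun i => one_mul _)))
    · exact mul_div_cancel₀ _ this
    · exact div_mul_cancel₀ _ this
  · simp [Fin.sum_univ_succ]; ring
  · simp [Fin.sum_univ_succ, ← hR]; ring

theorem result (n : ℕ) (hn : 3 ≤ n) :
    (∀ M : E n → ℝ, ∃ C, IsCompl M C ∧ C.rank ≤ 4) ∧ ¬ IsGreatest {r | Typical n r} 5 := by
  classical
  have key : ∀ M : E n → ℝ, ∃ C, IsCompl M C ∧ C.rank ≤ 4 := by
    intro M
    let m : Fin n → Fin n → ℝ := fun i j => if e : s(i, j) ∈ E n then M ⟨_, e⟩ else 0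
    have ms : ∀ i j, m i j = m j i := fun i j => by simp only [m, Sym2.eq_swap (a := j)]
    rcases hn.eq_or_lt with rfl | hn
    · exact ⟨Matrix.of m, ⟨Matrix.IsSymm.ext fun i j => ms _ _, fun i j e => by simp [m, e]⟩,
        (rank_le_width _).trans (by norm_num)⟩
    obtain ⟨k, rfl⟩ : ∃ k, n = k + 4 := ⟨n - 4, by omega⟩
    obtain ⟨δ, ε, h1, h2, h3⟩ := poly fun i => (m i i + m (i + 1) (i + 1)) / 2 - m i (i + 1)
    obtain ⟨x, hx⟩ := pot δ h2
    obtain ⟨t, ht⟩ := pot ε h3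
    let A : Matrix (Fin (k + 4)) (Fin 4) ℝ := Matrix.of fun i => ![1, x i, m i i / 2 - t i * x i, t i]
    let B : Matrix (Fin 4) (Fin (k + 4)) ℝ :=
      Matrix.of ![fun j => m j j / 2 - t j * x j, t, fun _ => 1, x]
    have hC : ∀ i j, (A * B) i j = (m i i + m j j) / 2 - (x j - x i) * (t j - t i) := by
      intro i j
      simp [A, B, mul_apply, Fin.sum_univ_succ]
      ring
    have h4 : ∀ i, (A * B) i (i + 1) = m i (i + 1) := fun i => by rw [hC, hx, ht, h1]; ring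
    have h5 : (A * B).IsSymm := Matrix.IsSymm.ext fun i j => by rw [hC, hC]; ring
    refine ⟨A * B, ⟨h5, fun i j e => ?_⟩, (rank_mul_le_left _ _).trans (rank_le_width _)⟩
    have : (A * B) i j = m i j := by
      rcases e with e | e
      · rw [Sym2.mk_isDiag_iff] at e
        subst e
        rw [hC]; ring
      · rcases SimpleGraph.cycleGraph_adj.1 ((SimpleGraph.mem_edgeSet _).1 e) with e | e
        · rw [sub_eq_iff_eq_add'.1 e, h5.apply, h4, ms]
        · rw [sub_eq_iff_eq_add'.1 e, h4]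
    rw [this]
    simp [m, e]
  refine ⟨key, fun h => ?_⟩
  obtain ⟨M, hM⟩ := h.1
  obtain ⟨C, h1, h2⟩ := key M
  have := (interior_subset hM).2 ⟨C, h1, rfl⟩
  omega

end Pool.Agent.Results.MP_541c26_co.RankFour
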